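import Pool.Agent.H500R3.Ham.Low

/-!
Polluted transitive closure on the Hamming graph `[n]^d`: the critical density is `n^(-1+o(1))` for
every dimension `d ≥ 3`, so the exponent `γ(d)` exists and equals `1`.

The definitions (`V`, `NonEdge`, `IsOpen`, `Occ`, `Saturated`, `prob`, `pc`) are in
`Pool/Agent/H500R3/Ham/Def.lean`.
-/

set_option autoImplicit false

namespace Pool.Agent.Results.MP_82e03f_pr.ExponentOne

open Filter Topology Pool.Agent.H500R3.Ham

/-- For every `d ≥ 3` the critical density satisfies `n^(-1-ε) ≤ p_c(n,d) ≤ n^(-1+ε)` for all large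
`n`, for every `ε > 0`; moreover `p_c(n,d) ≤ (4 d + 6) log n / n` for all large `n`. -/
theorem result : ∀ d : ℕ, 3 ≤ d →
    (∀ ε : ℝ, 0 < ε → ∀ᶠ n : ℕ in atTop,
      (n : ℝ) ^ (-1 - ε) ≤ pc n d ∧ pc n d ≤ (n : ℝ) ^ (-1 + ε)) ∧
    ∀ᶠ n : ℕ in atTop, pc n d ≤ (4 * d + 6) * Real.log n / n := by
  intro d hd
  refine ⟨?_, ?_⟩
  · intro ε hε
    have hc : (0 : ℝ) < 1 / (4 * d + 6) := by positivity
    have h2 := (isLittleO_log_rpow_atTop hε).bound hc
    have h3 := tendsto_natCast_atTop_atTop (R := ℝ) |>.eventually h2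
    filter_upwards [pc_bounds hd hε, h3, eventually_ge_atTop 1] with n h1 h4 hn
    refine ⟨h1.1, le_trans h1.2 ?_⟩
    have hn0 : (0 : ℝ) < n := by exact_mod_cast hn
    rw [Real.norm_eq_abs, Real.norm_eq_abs, abs_of_nonneg (Real.rpow_nonneg hn0.le ε)] at h4
    have h5 := le_trans (le_abs_self _) h4
    have h6 : (4 * (d : ℝ) + 6) * Real.log n ≤ (n : ℝ) ^ ε := by
      have h7 : (0 : ℝ) < 4 * d + 6 := by positivity
      calc (4 * (d : ℝ) + 6) * Real.log n ≤ (4 * (d : ℝ) + 6) * (1 / (4 * d + 6) * (n : ℝ) ^ ε) :=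
            mul_le_mul_of_nonneg_left h5 h7.le
        _ = (n : ℝ) ^ ε := by field_simp
    rw [div_le_iff₀ hn0, Real.rpow_add hn0]
    have h8 : (n : ℝ) ^ (-1 : ℝ) * (n : ℝ) ^ ε * n = (n : ℝ) ^ ε := by
      rw [Real.rpow_neg_one]
      field_simp
    rw [h8]
    exact h6
  · filter_upwards [pc_bounds hd one_pos] with n h1
    exact h1.2

end Pool.Agent.Results.MP_82e03f_pr.ExponentOne
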